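import Pool.Agent.W988.RA.Defs

set_option autoImplicit false

open MeasureTheory
open scoped ENNReal BigOperators

namespace Pool.Agent.W828.RA

open Pool.Agent.W988.RA

theorem result (hc : S_CUBE) (hs : S_SYM) (hr : S_RVP) : S_BAD := by
  intro n m V s hn hm hV hs0 hlog M0 hM0
  obtain ⟨r1, -, r3, -, r5, -⟩ := hr
  have hpr : Continuous (fun M : MM n => ((V, M) : AR n m × MM n)) := by fun_prop
  have hcont : Continuous (fun M : MM n => RV V M) :=
    Continuous.comp (g := fun q : AR n m × MM n => RV q.1 q.2)
      (f := fun M : MM n => ((V, M) : AR n m × MM n)) (r1 n m) hpr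
  set S : Set (MM n) := {D | (∀ k j, |D k j| ≤ s) ∧ RV V D ≤ 1} with hS
  have hcl : IsClosed S := by
    have h1 : IsClosed {D : MM n | ∀ k j, |D k j| ≤ s} := by
      have : {D : MM n | ∀ k j, |D k j| ≤ s} = ⋂ k, ⋂ j, {D : MM n | |D k j| ≤ s} := by
        ext D; simp
      rw [this]
      refine isClosed_iInter fun k => isClosed_iInter fun j => ?_
      exact isClosed_le (by fun_prop) continuous_const
    exact h1.inter (isClosed_le hcont continuous_const)
  have hinv : ∀ σ : Fin n → Bool, ∀ D ∈ S, (fun k j => sg σ k * D k j) ∈ S := by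
    intro σ D hD
    refine ⟨fun k j => ?_, ?_⟩
    · have h1 : |sg σ k| = 1 := by
        unfold sg
        split_ifs <;> simp
      rw [abs_mul, h1, one_mul]
      exact hD.1 k j
    · rw [r5 n m V D σ]
      exact hD.2
  have h1 := hs n m S hm hcl.measurableSet hinv M0
  have h2 := hc n m V s hn hV hs0 hlog
  have hd : 0 ≤ dtm M0 ^ m := pow_nonneg (abs_nonneg _) _
  rw [ENNReal.ofReal_mul hd]
  refine (mul_le_mul_right h2 _).trans (h1.trans ?_)
  set T : Set (MM n) := {M | RV V M ≤ 2} with hT
  have hTm : MeasurableSet T := (isClosed_le hcont continuous_const).measurableSet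
  have h3 : Ph V = ∫⁻ D : MM n, T.indicator (fun M => ENNReal.ofReal (dtm M ^ m)) (M0 + D) := by
    rw [lintegral_add_left_eq_self (μ := (volume : Measure (MM n)))
      (T.indicator (fun M => ENNReal.ofReal (dtm M ^ m))) M0, lintegral_indicator hTm]
    rfl
  rw [h3, ← lintegral_indicator hcl.measurableSet]
  refine lintegral_mono fun D => ?_
  by_cases hD : D ∈ S
  · have hDT : M0 + D ∈ T := by
      change RV V (M0 + D) ≤ 2
      have := r3 n m V M0 D
      have h4 : RV V D ≤ 1 := hD.2
      linarith
    rw [Set.indicator_of_mem hD, Set.indicator_of_mem hDT]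
  · rw [Set.indicator_of_notMem hD]
    exact bot_le

end Pool.Agent.W828.RA
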